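import Pool.Agent.Y187.WQ.Stm

/-! Job WQ-CS for helper187: lower semicontinuity at zero. -/

set_option autoImplicit false

open scoped ComplexOrder InnerProductSpace
open Finset Filter

namespace Pool.Agent.Y420.WQ

open Pool.Agent.Y187.WQ

theorem t_cs : W_cs := by
  intro H _ _ _ N M E hE ι l _ w v hw hv hr hlim ξ ht
  obtain ⟨r, hr⟩ := hr
  have hsub : ∀ x ∈ M, ∀ y ∈ M, E (x - y) = E x - E y := by
    intro x hx y hy
    have h1 : (-1 : ℂ) • y = -y := by rw [neg_smul, one_smul]
    have h2 := hE.smul (-1) y hy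
    rw [h1, neg_smul, one_smul] at h2
    rw [sub_eq_add_neg, hE.add x hx (-y) (neg_mem hy), h2, ← sub_eq_add_neg]
  have hpos : ∀ x ∈ M, 0 ≤ ⟪ξ, E (star x * x) ξ⟫_ℂ := by
    intro x hx
    have h1 : 0 ≤ E (star x * x) := hE.pos _ (mul_mem (star_mem hx) hx) (star_mul_self_nonneg x)
    have h2 := (ContinuousLinearMap.nonneg_iff_isPositive _).1 h1
    exact h2.inner_nonneg_right ξ
  have hlim1 : Tendsto (fun i => ⟪ξ, E (star v * w i) ξ⟫_ℂ) l (nhds ⟪ξ, E (star v * v) ξ⟫_ℂ) := by
    refine hE.normal ι l (fun i => star v * w i) (star v * v)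
      (fun i => mul_mem (star_mem hv) (hw i)) (mul_mem (star_mem hv) hv)
      ⟨‖star v‖ * r, fun i => ?_⟩ ?_ ξ ξ
    · exact (norm_mul_le _ _).trans (mul_le_mul_of_nonneg_left (hr i) (norm_nonneg _))
    · intro a b
      have e : ∀ x : H →L[ℂ] H, ⟪b, (star v * x) a⟫_ℂ = ⟪v b, x a⟫_ℂ := by
        intro x
        rw [ContinuousLinearMap.mul_apply, ContinuousLinearMap.star_eq_adjoint,
          ContinuousLinearMap.adjoint_inner_right]
      simp only [e]
      exact hlim a (v b)
  have hlim2 : Tendsto (fun i => ⟪ξ, E (star (w i) * v) ξ⟫_ℂ) l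
      (nhds ⟪ξ, E (star v * v) ξ⟫_ℂ) := by
    refine hE.normal ι l (fun i => star (w i) * v) (star v * v)
      (fun i => mul_mem (star_mem (hw i)) hv) (mul_mem (star_mem hv) hv)
      ⟨r * ‖v‖, fun i => ?_⟩ ?_ ξ ξ
    · refine (norm_mul_le _ _).trans ?_
      rw [norm_star]
      exact mul_le_mul_of_nonneg_right (hr i) (norm_nonneg _)
    · intro a b
      have e : ∀ x : H →L[ℂ] H, ⟪b, (star x * v) a⟫_ℂ = (starRingEnd ℂ) ⟪v a, x b⟫_ℂ := by
        intro x
        rw [ContinuousLinearMap.mul_apply, ContinuousLinearMap.star_eq_adjoint,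
          ContinuousLinearMap.adjoint_inner_right, inner_conj_symm]
      simp only [e]
      exact (Complex.continuous_conj.tendsto _).comp (hlim b (v a))
  have hvv := hpos v hv
  -- the limit of the positive numbers
  have hineq : ∀ i, 0 ≤ (⟪ξ, E (star v * v) ξ⟫_ℂ).re - (⟪ξ, E (star v * w i) ξ⟫_ℂ).re -
      (⟪ξ, E (star (w i) * v) ξ⟫_ℂ).re + (⟪ξ, E (star (w i) * w i) ξ⟫_ℂ).re := by
    intro i
    have h1 := hpos (v - w i) (sub_mem hv (hw i))
    have h2 : star (v - w i) * (v - w i) =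
        (star v * v - star v * w i) - (star (w i) * v - star (w i) * w i) := by
      rw [star_sub]
      noncomm_ring
    have m1 := mul_mem (star_mem hv) hv
    have m2 := mul_mem (star_mem hv) (hw i)
    have m3 := mul_mem (star_mem (hw i)) hv
    have m4 := mul_mem (star_mem (hw i)) (hw i)
    rw [h2, hsub _ (sub_mem m1 m2) _ (sub_mem m3 m4), hsub _ m1 _ m2, hsub _ m3 _ m4] at h1
    have h3 := (Complex.le_def.1 h1).1
    simp only [ContinuousLinearMap.sub_apply, inner_sub_right, Complex.sub_re,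
      Complex.zero_re] at h3
    linarith
  have hfin : 0 ≤ (⟪ξ, E (star v * v) ξ⟫_ℂ).re - (⟪ξ, E (star v * v) ξ⟫_ℂ).re -
      (⟪ξ, E (star v * v) ξ⟫_ℂ).re + 0 := by
    refine ge_of_tendsto' (((tendsto_const_nhds.sub
      ((Complex.continuous_re.tendsto _).comp hlim1)).sub
      ((Complex.continuous_re.tendsto _).comp hlim2)).add ht) hineq
  have h4 := Complex.le_def.1 hvv
  apply Complex.ext
  · have := h4.1
    simp only [Complex.zero_re] at this ⊢
    linarith
  · exact h4.2.symm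

end Pool.Agent.Y420.WQ
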